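import Pool.Agent.Helper967.FL10
import Pool.Agent.Helper967.AD6

/-! Negative answer to Q2: over every algebraically closed field `F` of characteristic zero (such as
the complex numbers), the universal theory of `F` is decidable, and the universal theory of every
free Lie algebra over `F` of rank at least two is undecidable. -/

namespace Pool.Agent.Results.MP_5be460_lc.DisproofQ2

open Pool.Agent.Helper967.FL

/-- For every algebraically closed field `F` of characteristic zero and every `X` with at least two
elements: `Th_∀(F)` is decidable and `Th_∀(L_F(X))` is undecidable. -/
theorem result (F : Type*) [Field F] [CharZero F] [IsAlgClosed F] (X : Type*) [Nontrivial X] :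
    FieldUniversalTheoryDecidable F ∧ ¬ LieUniversalTheoryDecidable F (FreeLieAlgebra F X) :=
  ⟨Pool.Agent.Helper967.AD.field_decidable F, lie_undecidable F X⟩

end Pool.Agent.Results.MP_5be460_lc.DisproofQ2
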