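import Pool.Agent.Helper967.FL10

/-! The universal theory (without constants) of every noncommutative free Lie algebra over a field
of characteristic zero is undecidable. -/

namespace Pool.Agent.Results.MP_5be460_lc.UniversalTheory

open Pool.Agent.Helper967.FL

/-- For every field `F` of characteristic zero and every `X` with at least two elements, the
universal theory of the two-sorted structure `(L_F(X), F)` is undecidable. -/
theorem result (F : Type*) [Field F] [CharZero F] (X : Type*) [Nontrivial X] :
    ¬ LieUniversalTheoryDecidable F (FreeLieAlgebra F X) :=
  lie_undecidable F X

end Pool.Agent.Results.MP_5be460_lc.UniversalTheory
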